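import Mathlib

set_option autoImplicit false

namespace Q117.KInd

open Finset

variable {V : Type*} [DecidableEq V] (G : SimpleGraph V) [DecidableRel G.Adj]

/-- degree of `v` inside `S` -/
def dg (S : Finset V) (v : V) : ℕ := (S.filter (fun w => G.Adj v w)).card

/-- ordered pairs of adjacent vertices of `S`, at least one of which has degree `≥ k + 1` in `S` -/
def E (k : ℕ) (S : Finset V) : Finset (V × V) :=
  (S ×ˢ S).filter (fun p => G.Adj p.1 p.2 ∧ (k + 1 ≤ dg G S p.1 ∨ k + 1 ≤ dg G S p.2))

variable {G}

lemma dg_mono {S' S : Finset V} (h : S' ⊆ S) (v : V) : dg G S' v ≤ dg G S v :=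
  Finset.card_le_card (Finset.filter_subset_filter _ h)

lemma dg_lt {S' S : Finset V} (h : S' ⊆ S) (v w : V) (hv : v ∈ S) (hv' : v ∉ S')
    (hadj : G.Adj w v) : dg G S' w + 1 ≤ dg G S w := by
  unfold dg
  have h1 : insert v (S'.filter (fun x => G.Adj w x)) ⊆ S.filter (fun x => G.Adj w x) := by
    intro x hx
    rw [mem_insert] at hx
    rw [mem_filter]
    rcases hx with rfl | hx
    · exact ⟨hv, hadj⟩
    · rw [mem_filter] at hx
      exact ⟨h hx.1, hx.2⟩
  have h2 := Finset.card_le_card h1
  rw [Finset.card_insert_of_notMem] at h2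
  · exact h2
  · intro h'
    exact hv' (mem_filter.1 h').1

lemma mem_E {k : ℕ} {S : Finset V} {p : V × V} : p ∈ E G k S ↔
    (p.1 ∈ S ∧ p.2 ∈ S) ∧ G.Adj p.1 p.2 ∧ (k + 1 ≤ dg G S p.1 ∨ k + 1 ≤ dg G S p.2) := by
  unfold E
  rw [mem_filter, mem_product]

lemma E_mono {k : ℕ} {S' S : Finset V} (h : S' ⊆ S) : E G k S' ⊆ E G k S := by
  intro p hp
  rw [mem_E] at hp ⊢
  refine ⟨⟨h hp.1.1, h hp.1.2⟩, hp.2.1, ?_⟩
  rcases hp.2.2 with h1 | h1
  · exact Or.inl (h1.trans (dg_mono h _))
  · exact Or.inr (h1.trans (dg_mono h _))

lemma E_gain {k : ℕ} {S' S : Finset V} (h : S' ⊆ S) (F : Finset (V × V)) (hF : F ⊆ E G k S)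
    (hdis : ∀ p ∈ F, p ∉ E G k S') : (E G k S').card + F.card ≤ (E G k S).card := by
  rw [← Finset.card_union_of_disjoint]
  · apply Finset.card_le_card
    exact Finset.union_subset (E_mono h) hF
  · rw [Finset.disjoint_right]
    exact hdis

/-- the ordered pairs between `v` and `N` -/
def st (v : V) (N : Finset V) : Finset (V × V) :=
  N.image (fun w => (v, w)) ∪ N.image (fun w => (w, v))

lemma mem_st {v : V} {N : Finset V} {p : V × V} :
    p ∈ st v N ↔ (p.1 = v ∧ p.2 ∈ N) ∨ (p.2 = v ∧ p.1 ∈ N) := by
  unfold st
  rw [mem_union, mem_image, mem_image]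
  constructor
  · rintro (⟨w, hw, rfl⟩ | ⟨w, hw, rfl⟩)
    · exact Or.inl ⟨rfl, hw⟩
    · exact Or.inr ⟨rfl, hw⟩
  · rintro (⟨h1, h2⟩ | ⟨h1, h2⟩)
    · exact Or.inl ⟨p.2, h2, Prod.ext h1.symm rfl⟩
    · exact Or.inr ⟨p.1, h2, Prod.ext rfl h1.symm⟩

lemma card_st {v : V} {N : Finset V} (h : v ∉ N) : (st v N).card = 2 * N.card := by
  unfold st
  rw [Finset.card_union_of_disjoint, Finset.card_image_of_injective, Finset.card_image_of_injective]
  · ring
  · intro a b hab
    simpa using hab
  · intro a b hab
    simpa using hab
  · rw [Finset.disjoint_left]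
    intro p hp hp'
    rw [mem_image] at hp hp'
    obtain ⟨w, hw, rfl⟩ := hp
    obtain ⟨w', hw', heq⟩ := hp'
    simp only [Prod.mk.injEq] at heq
    rw [heq.1] at hw'
    exact h hw'

lemma st_sub_E {k : ℕ} {S : Finset V} {v : V} (hv : v ∈ S) (hd : k + 1 ≤ dg G S v)
    (N : Finset V) (hN : N ⊆ S.filter (fun w => G.Adj v w)) : st v N ⊆ E G k S := by
  intro p hp
  rw [mem_st] at hp
  rw [mem_E]
  rcases hp with ⟨h1, h2⟩ | ⟨h1, h2⟩
  · have := mem_filter.1 (hN h2)
    rw [h1]
    exact ⟨⟨hv, this.1⟩, this.2, Or.inl hd⟩
  · have := mem_filter.1 (hN h2)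
    rw [h1]
    exact ⟨⟨this.1, hv⟩, this.2.symm, Or.inr hd⟩

/-- The conclusion for `S`. -/
def Good (G : SimpleGraph V) [DecidableRel G.Adj] (k : ℕ) (S : Finset V) : Prop :=
  ∃ D ⊆ S, (∀ v ∈ S \ D, dg G (S \ D) v ≤ k) ∧
    (2 * k ^ 2 + 5 * k + 4) * D.card ≤ (k + 1) * (E G k S).card + S.card

lemma good_one {k : ℕ} {S : Finset V} {v : V} (hv : v ∈ S) (h : Good G k (S.erase v))
    (hE : (E G k (S.erase v)).card + 2 * (k + 2) ≤ (E G k S).card) : Good G k S := by
  obtain ⟨D, hD, hdeg, hcard⟩ := h
  have hvD : v ∉ D := fun h => Finset.notMem_erase v S (hD h)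
  have heq : S \ insert v D = S.erase v \ D := by
    ext x
    simp only [mem_sdiff, mem_insert, mem_erase]
    tauto
  refine ⟨insert v D, ?_, ?_, ?_⟩
  · intro x hx
    rw [mem_insert] at hx
    rcases hx with rfl | hx
    · exact hv
    · exact Finset.mem_of_mem_erase (hD hx)
  · rw [heq]; exact hdeg
  · rw [Finset.card_insert_of_notMem hvD]
    have h1 : (S.erase v).card + 1 = S.card := Finset.card_erase_add_one hv
    have h2 := Nat.mul_le_mul_left (k + 1) hE
    nlinarith

lemma good_two {k : ℕ} {S : Finset V} {v v' : V} (hv : v ∈ S) (hv' : v' ∈ S) (hne : v ≠ v')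
    (h : Good G k ((S.erase v).erase v'))
    (hE : (E G k ((S.erase v).erase v')).card + 2 * (2 * k + 3) ≤ (E G k S).card) :
    Good G k S := by
  obtain ⟨D, hD, hdeg, hcard⟩ := h
  have hvD' : v' ∉ D := fun h => Finset.notMem_erase v' _ (hD h)
  have hvD : v ∉ D := fun h => Finset.notMem_erase v S (Finset.mem_of_mem_erase (hD h))
  have heq : S \ insert v (insert v' D) = (S.erase v).erase v' \ D := by
    ext x
    simp only [mem_sdiff, mem_insert, mem_erase]
    tauto
  refine ⟨insert v (insert v' D), ?_, ?_, ?_⟩
  · intro x hx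
    rw [mem_insert, mem_insert] at hx
    rcases hx with rfl | rfl | hx
    · exact hv
    · exact hv'
    · exact Finset.mem_of_mem_erase (Finset.mem_of_mem_erase (hD hx))
  · rw [heq]; exact hdeg
  · rw [Finset.card_insert_of_notMem, Finset.card_insert_of_notMem hvD']
    · have h1 : (S.erase v).card + 1 = S.card := Finset.card_erase_add_one hv
      have h2 : ((S.erase v).erase v').card + 1 = (S.erase v).card :=
        Finset.card_erase_add_one (Finset.mem_erase.2 ⟨hne.symm, hv'⟩)
      have h3 := Nat.mul_le_mul_left (k + 1) hE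
      nlinarith
    · rw [mem_insert]
      rintro (h | h)
      · exact hne h
      · exact hvD h

/-- The main inequality, by induction on `|S|`. -/
theorem main (k : ℕ) (hk : 2 ≤ k) : ∀ (n : ℕ) (S : Finset V), S.card = n → Good G k S := by
  intro n
  induction n using Nat.strong_induction_on with
  | _ n ih =>
    intro S hSn
    have hNv : ∀ v, v ∉ S.filter (fun w => G.Adj v w) := by
      intro v h
      exact G.loopless.irrefl _ (mem_filter.1 h).2
    have ihe : ∀ v ∈ S, Good G k (S.erase v) := by
      intro v hv
      have h1 : (S.erase v).card + 1 = S.card := Finset.card_erase_add_one hv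
      exact ih _ (by omega) _ rfl
    -- case 0
    by_cases h0 : ∀ v ∈ S, dg G S v ≤ k
    · refine ⟨∅, Finset.empty_subset _, ?_, ?_⟩
      · rw [Finset.sdiff_empty]; exact h0
      · simp
    push Not at h0
    -- case 1
    by_cases h1 : ∃ v ∈ S, k + 2 ≤ dg G S v
    · obtain ⟨v, hv, hd⟩ := h1
      apply good_one hv (ihe v hv)
      have hF := card_st (hNv v)
      have hgain := E_gain (G := G) (k := k) (Finset.erase_subset v S)
        (st v (S.filter (fun w => G.Adj v w))) (st_sub_E hv (by omega) _ (Finset.Subset.refl _))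
        (by
          intro p hp hpE
          rw [mem_st] at hp
          rw [mem_E] at hpE
          rcases hp with ⟨h1, _⟩ | ⟨h1, _⟩
          · have := hpE.1.1
            rw [h1] at this
            exact Finset.notMem_erase v S this
          · have := hpE.1.2
            rw [h1] at this
            exact Finset.notMem_erase v S this)
      unfold dg at hd
      omega
    push Not at h1
    have hle : ∀ v ∈ S, dg G S v ≤ k + 1 := fun v hv => by have := h1 v hv; omega
    -- case 3
    by_cases h3 : ∃ v ∈ S, k + 1 ≤ dg G S v ∧ ∃ w ∈ S, k + 1 ≤ dg G S w ∧ G.Adj v w ∧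
        ∃ x ∈ S, G.Adj w x ∧ x ≠ v ∧ (dg G S x ≤ k ∨ G.Adj v x)
    · obtain ⟨v, hv, hdv, w, hw, hdw, hvw, x, hx, hwx, hxv, hor⟩ := h3
      apply good_one hv (ihe v hv)
      have hwne : w ≠ v := hvw.ne'
      have hF := card_st (hNv v)
      have hdw' := dg_lt (G := G) (Finset.erase_subset v S) v w hv (Finset.notMem_erase v S)
        hvw.symm
      have hdx' : dg G (S.erase v) x ≤ k := by
        rcases hor with h | h
        · exact (dg_mono (Finset.erase_subset v S) x).trans h
        · have h4 := dg_lt (G := G) (Finset.erase_subset v S) v x hv (Finset.notMem_erase v S)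
            h.symm
          have h5 := hle x hx
          omega
      have hlew := hle w hw
      have hdis : Disjoint (st v (S.filter (fun w => G.Adj v w))) (st w {x}) := by
        rw [Finset.disjoint_left]
        intro p hp hp'
        rw [mem_st] at hp hp'
        simp only [mem_singleton] at hp'
        rcases hp with ⟨h1, _⟩ | ⟨h1, _⟩ <;> rcases hp' with ⟨h2, h3⟩ | ⟨h2, h3⟩
        · exact hwne (h2.symm.trans h1)
        · exact hxv (h3.symm.trans h1)
        · exact hxv (h3.symm.trans h1)
        · exact hwne (h2.symm.trans h1)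
      have hgain := E_gain (G := G) (k := k) (Finset.erase_subset v S)
        (st v (S.filter (fun w => G.Adj v w)) ∪ st w {x})
        (Finset.union_subset (st_sub_E hv hdv _ (Finset.Subset.refl _))
          (st_sub_E hw hdw _ (by
            intro z hz
            rw [mem_singleton] at hz
            rw [hz, mem_filter]
            exact ⟨hx, hwx⟩)))
        (by
          intro p hp hpE
          rw [mem_union] at hp
          rw [mem_E] at hpE
          rcases hp with hp | hp
          · rw [mem_st] at hp
            rcases hp with ⟨h1, _⟩ | ⟨h1, _⟩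
            · have := hpE.1.1
              rw [h1] at this
              exact Finset.notMem_erase v S this
            · have := hpE.1.2
              rw [h1] at this
              exact Finset.notMem_erase v S this
          · rw [mem_st] at hp
            simp only [mem_singleton] at hp
            rcases hp with ⟨h1, h2⟩ | ⟨h1, h2⟩
            · rw [h1, h2] at hpE
              rcases hpE.2.2 with h | h <;> omega
            · rw [h1, h2] at hpE
              rcases hpE.2.2 with h | h <;> omega)
      rw [Finset.card_union_of_disjoint hdis] at hgain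
      have hc2 : (st w {x}).card = 2 := by
        rw [card_st]
        · simp
        · rw [mem_singleton]; exact hwx.ne
      unfold dg at hdv
      omega
    -- the consequence of the failure of case 3
    have P3 : ∀ v ∈ S, k + 1 ≤ dg G S v → ∀ w ∈ S, k + 1 ≤ dg G S w → G.Adj v w →
        ∀ x ∈ S, G.Adj w x → x ≠ v → k + 1 ≤ dg G S x ∧ ¬ G.Adj v x := by
      intro v hv hdv w hw hdw hvw x hx hwx hxv
      constructor
      · by_contra hcon
        exact h3 ⟨v, hv, hdv, w, hw, hdw, hvw, x, hx, hwx, hxv, Or.inl (by omega)⟩
      · intro hvx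
        exact h3 ⟨v, hv, hdv, w, hw, hdw, hvw, x, hx, hwx, hxv, Or.inr hvx⟩
    -- case 6: an edge inside `T`
    by_cases h6 : ∃ u ∈ S, k + 1 ≤ dg G S u ∧ ∃ u' ∈ S, k + 1 ≤ dg G S u' ∧ G.Adj u u'
    · obtain ⟨u, hu, hdu, u', hu', hdu', huu'⟩ := h6
      set A := (S.filter (fun w => G.Adj u w)).erase u' with hA
      set A' := (S.filter (fun w => G.Adj u' w)).erase u with hA'
      have hu'mem : u' ∈ S.filter (fun w => G.Adj u w) := mem_filter.2 ⟨hu', huu'⟩
      have humem : u ∈ S.filter (fun w => G.Adj u' w) := mem_filter.2 ⟨hu, huu'.symm⟩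
      have hAc : k ≤ A.card := by
        rw [hA, Finset.card_erase_of_mem hu'mem]
        unfold dg at hdu
        omega
      have hAc' : k ≤ A'.card := by
        rw [hA', Finset.card_erase_of_mem humem]
        unfold dg at hdu'
        omega
      have memA : ∀ w ∈ A, w ∈ S ∧ G.Adj u w ∧ w ≠ u' ∧ k + 1 ≤ dg G S w ∧ ¬ G.Adj u' w := by
        intro w hw
        rw [hA, mem_erase, mem_filter] at hw
        have := P3 u' hu' hdu' u hu hdu huu'.symm w hw.2.1 hw.2.2 hw.1
        exact ⟨hw.2.1, hw.2.2, hw.1, this.1, this.2⟩
      have memA' : ∀ w ∈ A', w ∈ S ∧ G.Adj u' w ∧ w ≠ u ∧ k + 1 ≤ dg G S w ∧ ¬ G.Adj u w := by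
        intro w hw
        rw [hA', mem_erase, mem_filter] at hw
        have := P3 u hu hdu u' hu' hdu' huu' w hw.2.1 hw.2.2 hw.1
        exact ⟨hw.2.1, hw.2.2, hw.1, this.1, this.2⟩
      by_cases h6a : ∃ w ∈ A, ∃ w' ∈ A', ¬ G.Adj w w'
      · obtain ⟨w, hw, w', hw', hnadj⟩ := h6a
        obtain ⟨hwS, huw, hwu', hdw, hu'w⟩ := memA w hw
        obtain ⟨hwS', hu'w', hw'u, hdw', huw'⟩ := memA' w' hw'
        have hwu : w ≠ u := huw.ne'
        have hw'u' : w' ≠ u' := hu'w'.ne'
        have hww' : w ≠ w' := by
          rintro rfl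
          exact hu'w hu'w'
        have hsub : (S.erase w).erase w' ⊆ S :=
          (Finset.erase_subset _ _).trans (Finset.erase_subset _ _)
        have hg : Good G k ((S.erase w).erase w') := by
          have e1 : (S.erase w).card + 1 = S.card := Finset.card_erase_add_one hwS
          have e2 : ((S.erase w).erase w').card + 1 = (S.erase w).card :=
            Finset.card_erase_add_one (Finset.mem_erase.2 ⟨hww'.symm, hwS'⟩)
          exact ih _ (by omega) _ rfl
        apply good_two hwS hwS' hww' hg
        have hnw : w ∉ (S.erase w).erase w' := fun h =>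
          Finset.notMem_erase w S (Finset.mem_of_mem_erase h)
        have hnw' : w' ∉ (S.erase w).erase w' := Finset.notMem_erase _ _
        have d1 := dg_lt (G := G) hsub w u hwS hnw huw
        have d2 := dg_lt (G := G) hsub w' u' hwS' hnw' hu'w'
        have l1 := hle u hu
        have l2 := hle u' hu'
        set N := S.filter (fun z => G.Adj w z) with hN
        set N' := S.filter (fun z => G.Adj w' z) with hN'
        have c1 : (st w N).card = 2 * N.card := card_st (hNv w)
        have c2 : (st w' N').card = 2 * N'.card := card_st (hNv w')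
        have c3 : (st u {u'}).card = 2 := by
          rw [card_st]
          · simp
          · rw [mem_singleton]; exact huu'.ne
        have dis1 : Disjoint (st w N) (st w' N') := by
          rw [Finset.disjoint_left]
          intro p hp hp'
          rw [mem_st] at hp hp'
          rcases hp with ⟨a1, a2⟩ | ⟨a1, a2⟩ <;> rcases hp' with ⟨b1, b2⟩ | ⟨b1, b2⟩
          · exact hww' (a1.symm.trans b1)
          · rw [hN, mem_filter] at a2
            rw [b1] at a2
            exact hnadj a2.2
          · rw [hN, mem_filter] at a2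
            rw [b1] at a2
            exact hnadj a2.2
          · exact hww' (a1.symm.trans b1)
        have dis2 : Disjoint (st w N ∪ st w' N') (st u {u'}) := by
          rw [Finset.disjoint_left]
          intro p hp hp'
          rw [mem_union, mem_st, mem_st] at hp
          rw [mem_st] at hp'
          simp only [mem_singleton] at hp'
          rcases hp with (⟨a1, a2⟩ | ⟨a1, a2⟩) | (⟨a1, a2⟩ | ⟨a1, a2⟩) <;>
            rcases hp' with ⟨b1, b2⟩ | ⟨b1, b2⟩
          · exact hwu (a1.symm.trans b1)
          · exact hwu' (a1.symm.trans b2)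
          · exact hwu' (a1.symm.trans b2)
          · exact hwu (a1.symm.trans b1)
          · exact hw'u (a1.symm.trans b1)
          · exact hw'u' (a1.symm.trans b2)
          · exact hw'u' (a1.symm.trans b2)
          · exact hw'u (a1.symm.trans b1)
        have hgain := E_gain (G := G) (k := k) hsub ((st w N ∪ st w' N') ∪ st u {u'})
          (Finset.union_subset (Finset.union_subset
            (st_sub_E hwS hdw _ (Finset.Subset.refl _))
            (st_sub_E hwS' hdw' _ (Finset.Subset.refl _)))
            (st_sub_E hu hdu _ (by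
              intro z hz
              rw [mem_singleton] at hz
              rw [hz]; exact hu'mem)))
          (by
            intro p hp hpE
            rw [mem_union, mem_union, mem_st, mem_st, mem_st] at hp
            simp only [mem_singleton] at hp
            rw [mem_E] at hpE
            rcases hp with ((⟨a1, a2⟩ | ⟨a1, a2⟩) | (⟨a1, a2⟩ | ⟨a1, a2⟩)) |
              (⟨a1, a2⟩ | ⟨a1, a2⟩)
            · exact hnw (a1 ▸ hpE.1.1)
            · exact hnw (a1 ▸ hpE.1.2)
            · exact hnw' (a1 ▸ hpE.1.1)
            · exact hnw' (a1 ▸ hpE.1.2)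
            · rw [a1, a2] at hpE
              rcases hpE.2.2 with h | h <;> omega
            · rw [a1, a2] at hpE
              rcases hpE.2.2 with h | h <;> omega)
        rw [Finset.card_union_of_disjoint dis2, Finset.card_union_of_disjoint dis1, c1, c2,
          c3] at hgain
        have g1 : k + 1 ≤ N.card := hdw
        have g2 : k + 1 ≤ N'.card := hdw'
        omega
      · push Not at h6a
        -- delete `u` and `u'`
        have hune : u ≠ u' := huu'.ne
        have hsub : (S.erase u).erase u' ⊆ S :=
          (Finset.erase_subset _ _).trans (Finset.erase_subset _ _)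
        have hg : Good G k ((S.erase u).erase u') := by
          have e1 : (S.erase u).card + 1 = S.card := Finset.card_erase_add_one hu
          have e2 : ((S.erase u).erase u').card + 1 = (S.erase u).card :=
            Finset.card_erase_add_one (Finset.mem_erase.2 ⟨hune.symm, hu'⟩)
          exact ih _ (by omega) _ rfl
        apply good_two hu hu' hune hg
        have hnu : u ∉ (S.erase u).erase u' := fun h =>
          Finset.notMem_erase u S (Finset.mem_of_mem_erase h)
        have hnu' : u' ∉ (S.erase u).erase u' := Finset.notMem_erase _ _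
        obtain ⟨w, hw⟩ : A.Nonempty := by
          rw [← Finset.card_pos]; omega
        obtain ⟨hwS, huw, hwu', hdw, hu'w⟩ := memA w hw
        obtain ⟨y, z, hy, hz, hyz⟩ := Finset.one_lt_card_iff.1 (show 1 < A'.card by omega)
        have hwu : w ≠ u := huw.ne'
        have hwA' : w ∉ A' := fun h => (memA' w h).2.2.2.2 huw
        set N := S.filter (fun z => G.Adj u z) with hN
        have c1 : (st u N).card = 2 * N.card := card_st (hNv u)
        have hu'A' : u' ∉ A' := by
          intro h
          exact G.loopless.irrefl _ (memA' u' h).2.1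
        have c2 : (st u' A').card = 2 * A'.card := card_st hu'A'
        have c3 : (st w {y, z}).card = 4 := by
          rw [card_st]
          · rw [Finset.card_pair hyz]
          · rw [mem_insert, mem_singleton]
            rintro (h | h)
            · exact hwA' (h ▸ hy)
            · exact hwA' (h ▸ hz)
        have dis1 : Disjoint (st u N) (st u' A') := by
          rw [Finset.disjoint_left]
          intro p hp hp'
          rw [mem_st] at hp hp'
          rcases hp with ⟨a1, a2⟩ | ⟨a1, a2⟩ <;> rcases hp' with ⟨b1, b2⟩ | ⟨b1, b2⟩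
          · exact hune (a1.symm.trans b1)
          · rw [a1] at b2
            exact (memA' u b2).2.2.1 rfl
          · rw [a1] at b2
            exact (memA' u b2).2.2.1 rfl
          · exact hune (a1.symm.trans b1)
        have hyzA : ∀ x ∈ ({y, z} : Finset V), x ∈ A' := by
          intro x hx
          rw [mem_insert, mem_singleton] at hx
          rcases hx with rfl | rfl
          · exact hy
          · exact hz
        have dis2 : Disjoint (st u N ∪ st u' A') (st w {y, z}) := by
          rw [Finset.disjoint_left]
          intro p hp hp'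
          rw [mem_union, mem_st, mem_st] at hp
          rw [mem_st] at hp'
          rcases hp with (⟨a1, a2⟩ | ⟨a1, a2⟩) | (⟨a1, a2⟩ | ⟨a1, a2⟩) <;>
            rcases hp' with ⟨b1, b2⟩ | ⟨b1, b2⟩
          · exact hwu (b1.symm.trans a1)
          · exact (memA' _ (hyzA _ b2)).2.2.1 a1
          · exact (memA' _ (hyzA _ b2)).2.2.1 a1
          · exact hwu (b1.symm.trans a1)
          · exact hwu' (b1.symm.trans a1)
          · exact hu'A' (a1 ▸ hyzA _ b2)
          · exact hu'A' (a1 ▸ hyzA _ b2)
          · exact hwu' (b1.symm.trans a1)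
        have dw := dg_lt (G := G) hsub u w hu hnu huw.symm
        have lw := hle w hwS
        have dyz : ∀ x ∈ ({y, z} : Finset V), dg G ((S.erase u).erase u') x ≤ k := by
          intro x hx
          have h5 := memA' x (hyzA x hx)
          have h6 := dg_lt (G := G) hsub u' x hu' hnu' h5.2.1.symm
          have h7 := hle x h5.1
          omega
        have hgain := E_gain (G := G) (k := k) hsub ((st u N ∪ st u' A') ∪ st w {y, z})
          (Finset.union_subset (Finset.union_subset
            (st_sub_E hu hdu _ (Finset.Subset.refl _))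
            (st_sub_E hu' hdu' _ (Finset.erase_subset _ _)))
            (st_sub_E hwS hdw _ (by
              intro x hx
              rw [mem_filter]
              exact ⟨(memA' x (hyzA x hx)).1, h6a w hw x (hyzA x hx)⟩)))
          (by
            intro p hp hpE
            rw [mem_union, mem_union, mem_st, mem_st, mem_st] at hp
            rw [mem_E] at hpE
            rcases hp with ((⟨a1, a2⟩ | ⟨a1, a2⟩) | (⟨a1, a2⟩ | ⟨a1, a2⟩)) |
              (⟨a1, a2⟩ | ⟨a1, a2⟩)
            · exact hnu (a1 ▸ hpE.1.1)
            · exact hnu (a1 ▸ hpE.1.2)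
            · exact hnu' (a1 ▸ hpE.1.1)
            · exact hnu' (a1 ▸ hpE.1.2)
            · have h8 := dyz _ a2
              rw [a1] at hpE
              rcases hpE.2.2 with h | h <;> omega
            · have h8 := dyz _ a2
              rw [a1] at hpE
              rcases hpE.2.2 with h | h <;> omega)
        rw [Finset.card_union_of_disjoint dis2, Finset.card_union_of_disjoint dis1, c1, c2,
          c3] at hgain
        have g1 : k + 1 ≤ N.card := hdu
        omega
    -- no edges inside `T`
    have hTT : ∀ v ∈ S, k + 1 ≤ dg G S v → ∀ w ∈ S, G.Adj v w → dg G S w ≤ k := by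
      intro v hv hdv w hw hvw
      by_contra hcon
      exact h6 ⟨v, hv, hdv, w, hw, by omega, hvw⟩
    -- case 4
    by_cases h4 : ∃ w ∈ S, ∃ v₁ ∈ S, ∃ v₂ ∈ S, v₁ ≠ v₂ ∧ k + 1 ≤ dg G S v₁ ∧ k + 1 ≤ dg G S v₂ ∧
        G.Adj v₁ w ∧ G.Adj v₂ w
    · obtain ⟨w, hw, v₁, hv₁, v₂, hv₂, hne, hd1, hd2, ha1, ha2⟩ := h4
      apply good_one hw (ihe w hw)
      have hsub := Finset.erase_subset w S
      have hnw := Finset.notMem_erase w S
      have d1 := dg_lt (G := G) hsub w v₁ hw hnw ha1
      have d2 := dg_lt (G := G) hsub w v₂ hw hnw ha2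
      have l1 := hle v₁ hv₁
      have l2 := hle v₂ hv₂
      set N := S.filter (fun z => G.Adj v₁ z) with hN
      set N' := S.filter (fun z => G.Adj v₂ z) with hN'
      have c1 : (st v₁ N).card = 2 * N.card := card_st (hNv v₁)
      have c2 : (st v₂ N').card = 2 * N'.card := card_st (hNv v₂)
      have nonT : ∀ x ∈ N, dg G S x ≤ k := by
        intro x hx
        rw [hN, mem_filter] at hx
        exact hTT v₁ hv₁ hd1 x hx.1 hx.2
      have nonT' : ∀ x ∈ N', dg G S x ≤ k := by
        intro x hx
        rw [hN', mem_filter] at hx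
        exact hTT v₂ hv₂ hd2 x hx.1 hx.2
      have dis1 : Disjoint (st v₁ N) (st v₂ N') := by
        rw [Finset.disjoint_left]
        intro p hp hp'
        rw [mem_st] at hp hp'
        rcases hp with ⟨a1, a2⟩ | ⟨a1, a2⟩ <;> rcases hp' with ⟨b1, b2⟩ | ⟨b1, b2⟩
        · exact hne (a1.symm.trans b1)
        · have := nonT _ a2
          rw [b1] at this
          omega
        · have := nonT _ a2
          rw [b1] at this
          omega
        · exact hne (a1.symm.trans b1)
      have hgain := E_gain (G := G) (k := k) hsub (st v₁ N ∪ st v₂ N')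
        (Finset.union_subset (st_sub_E hv₁ hd1 _ (Finset.Subset.refl _))
          (st_sub_E hv₂ hd2 _ (Finset.Subset.refl _)))
        (by
          intro p hp hpE
          rw [mem_union, mem_st, mem_st] at hp
          rw [mem_E] at hpE
          rcases hp with (⟨a1, a2⟩ | ⟨a1, a2⟩) | (⟨a1, a2⟩ | ⟨a1, a2⟩)
          · have h5 := (dg_mono (G := G) hsub p.2).trans (nonT _ a2)
            rw [a1] at hpE
            rcases hpE.2.2 with h | h <;> omega
          · have h5 := (dg_mono (G := G) hsub p.1).trans (nonT _ a2)
            rw [a1] at hpE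
            rcases hpE.2.2 with h | h <;> omega
          · have h5 := (dg_mono (G := G) hsub p.2).trans (nonT' _ a2)
            rw [a1] at hpE
            rcases hpE.2.2 with h | h <;> omega
          · have h5 := (dg_mono (G := G) hsub p.1).trans (nonT' _ a2)
            rw [a1] at hpE
            rcases hpE.2.2 with h | h <;> omega)
      rw [Finset.card_union_of_disjoint dis1, c1, c2] at hgain
      have g1 : k + 1 ≤ N.card := hd1
      have g2 : k + 1 ≤ N'.card := hd2
      omega
    -- case 5
    obtain ⟨v, hv, hdv⟩ := h0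
    have hdv' : k + 1 ≤ dg G S v := hdv
    set N := S.filter (fun z => G.Adj v z) with hN
    have hvN : v ∉ N := hNv v
    have hNS : N ⊆ S := Finset.filter_subset _ _
    have hNc : N.card = k + 1 := le_antisymm (hle v hv) hdv'
    set S' := S \ insert v N with hS'
    have hsub : S' ⊆ S := Finset.sdiff_subset
    have hins : insert v N ⊆ S := by
      intro x hx
      rw [mem_insert] at hx
      rcases hx with rfl | hx
      · exact hv
      · exact hNS hx
    have hScard : S'.card + (k + 2) = S.card := by
      have := Finset.card_sdiff_add_card_eq_card hins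
      rw [Finset.card_insert_of_notMem hvN, hNc] at this
      exact this
    obtain ⟨D, hD, hdeg, hcard⟩ := ih S'.card (by omega) S' rfl
    have hvS' : v ∉ S' := by
      rw [hS', mem_sdiff]
      exact fun h => h.2 (mem_insert_self _ _)
    have hvD : v ∉ D := fun h => hvS' (hD h)
    refine ⟨insert v D, ?_, ?_, ?_⟩
    · intro x hx
      rw [mem_insert] at hx
      rcases hx with rfl | hx
      · exact hv
      · exact hsub (hD hx)
    · intro x hx
      rw [mem_sdiff, mem_insert] at hx
      obtain ⟨hxS, hxD⟩ := hx
      push Not at hxD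
      by_cases hdx : dg G S x ≤ k
      · exact (dg_mono Finset.sdiff_subset x).trans hdx
      · have hxN : x ∉ N := by
          intro h
          rw [hN, mem_filter] at h
          exact hdx (hTT v hv hdv' x h.1 h.2)
        have hxS' : x ∈ S' \ D := by
          rw [mem_sdiff, hS', mem_sdiff, mem_insert]
          exact ⟨⟨hxS, fun h => h.elim hxD.1 hxN⟩, hxD.2⟩
        refine le_trans ?_ (hdeg x hxS')
        apply Finset.card_le_card
        intro w hw
        rw [mem_filter, mem_sdiff, mem_insert] at hw
        obtain ⟨⟨hwS, hwD⟩, hxw⟩ := hw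
        push Not at hwD
        rw [mem_filter, mem_sdiff, hS', mem_sdiff, mem_insert]
        refine ⟨⟨⟨hwS, ?_⟩, hwD.2⟩, hxw⟩
        rintro (h | h)
        · exact hwD.1 h
        · rw [hN, mem_filter] at h
          exact h4 ⟨w, hwS, v, hv, x, hxS, fun h' => hxD.1 h'.symm, hdv', by omega, h.2, hxw⟩
    · have hgain := E_gain (G := G) (k := k) hsub (st v N)
        (st_sub_E hv hdv' _ (Finset.Subset.refl _))
        (by
          intro p hp hpE
          rw [mem_st] at hp
          rw [mem_E] at hpE
          rcases hp with ⟨a1, _⟩ | ⟨a1, _⟩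
          · exact hvS' (a1 ▸ hpE.1.1)
          · exact hvS' (a1 ▸ hpE.1.2))
      rw [card_st hvN, hNc] at hgain
      rw [Finset.card_insert_of_notMem hvD]
      have h5 := Nat.mul_le_mul_left (k + 1) hgain
      nlinarith

end Q117.KInd
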